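import Pool.Agent.Run7.h779.CG.Roots

/-!
# R1: dependence of the number of roots on d
-/

set_option autoImplicit false

namespace Pool.Agent.Run7.h779.CG

open Finset Pool.Agent.H38R2.CG Pool.Agent.H38R2.CG2 Pool.Agent.H38R2.CG.TB3ah
open scoped Classical

lemma Qz_pos (z : ℕ) : 0 < Qz z := by
  unfold Qz
  apply Nat.mul_pos (by norm_num)
  apply Finset.prod_pos
  intro l hl
  rw [Finset.mem_filter] at hl
  exact pow_pos hl.2.pos 2

lemma two_dvd_Qz (z : ℕ) : 2 ∣ Qz z := by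
  unfold Qz
  exact Dvd.dvd.mul_right (by norm_num) _

/-- multiplication by 4 does not change the symbol -/
lemma jac_four (n p : ℕ) (hp : p.Prime) (hp2 : p ≠ 2) :
    jacobiSym ((4 * n : ℕ) : ℤ) p = jacobiSym (n : ℤ) p := by
  push_cast
  rw [jacobiSym.mul_left]
  have h1 : jacobiSym ((2 : ℤ) ^ 2) p = 1 := by
    apply jacobiSym.sq_one'
    have h2 : Nat.Coprime 2 p := (Nat.coprime_primes Nat.prime_two hp).mpr (Ne.symm hp2)
    exact_mod_cast h2
  norm_num at h1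
  rw [h1, one_mul]

lemma jac_congr (a b p : ℕ) (h : a ≡ b [MOD p]) :
    jacobiSym (a : ℤ) p = jacobiSym (b : ℤ) p := by
  apply jacobiSym.mod_left'
  exact_mod_cast h

theorem T2_R1 : P2_R1 := by
  intro z r n v d hn hv hsq hdQ hdn
  have hQ := Qz_pos z
  have hd0 : 0 < d := Nat.pos_of_ne_zero hsq.ne_zero
  obtain ⟨r', hr1, hr2⟩ := Nat.chineseRemainder hdQ.symm r 0
  set a : ℕ := 4 * n + r' * v ^ 2 with ha
  have hpd : ∀ p ∈ d.primeFactors, p.Prime ∧ p ≠ 2 ∧ ¬ p ∣ a ∧ p ∣ r' ∧ ¬ p ∣ Qz z := by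
    intro p hp
    have hpp := Nat.prime_of_mem_primeFactors hp
    have hpd := Nat.dvd_of_mem_primeFactors hp
    have hpQ : ¬ p ∣ Qz z := by
      intro h
      have := Nat.dvd_gcd hpd h
      rw [hdQ.gcd_eq_one] at this
      exact hpp.one_lt.ne' (Nat.dvd_one.mp this)
    have hp2 : p ≠ 2 := by
      rintro rfl
      exact hpQ (two_dvd_Qz z)
    have hpr : p ∣ r' := hpd.trans ((Nat.modEq_zero_iff_dvd).mp hr2)
    refine ⟨hpp, hp2, ?_, hpr, hpQ⟩
    intro h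
    rw [ha] at h
    have h1 : p ∣ 4 * n := (Nat.dvd_add_left (Dvd.dvd.mul_right hpr _)).mp h
    rcases (hpp.dvd_mul).1 h1 with h2 | h2
    · have h3 : p ∣ 2 := by
        have : p ∣ 2 ^ 2 := by norm_num; exact h2
        exact hpp.dvd_of_dvd_pow this
      exact hp2 ((Nat.prime_dvd_prime_iff_eq hpp Nat.prime_two).1 h3)
    · have := Nat.dvd_gcd hpd h2
      rw [hdn.gcd_eq_one] at this
      exact hpp.one_lt.ne' (Nat.dvd_one.mp this)
  -- RR in terms of one congruence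
  have hRR : RR z r n v d = R (Qz z * (d * v ^ 2)) a := by
    unfold RR R
    congr 1
    refine Finset.filter_congr fun u _ => ?_
    have h1 : 4 * n + r * v ^ 2 ≡ a [MOD Qz z * v ^ 2] := by
      rw [ha]
      exact Nat.ModEq.add_left _ (Nat.ModEq.mul_right' _ hr1.symm)
    have h2 : 4 * n ≡ a [MOD d * v ^ 2] := by
      rw [ha]
      have h3 : 0 * v ^ 2 ≡ r' * v ^ 2 [MOD d * v ^ 2] := Nat.ModEq.mul_right' _ hr2.symm
      simpa using Nat.ModEq.add_left (4 * n) h3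
    constructor
    · rintro ⟨hA, hB⟩
      have hA' := hA.trans h1
      have hB' := hB.trans h2
      rw [Nat.modEq_iff_dvd] at hA' hB' ⊢
      obtain ⟨y, hy⟩ : ((v ^ 2 : ℕ) : ℤ) ∣ (a : ℤ) - ((u ^ 2 : ℕ) : ℤ) :=
        dvd_trans (by push_cast; exact Dvd.intro_left _ rfl) hB'
      have hv2 : ((v ^ 2 : ℕ) : ℤ) ≠ 0 := by
        have : 0 < v ^ 2 := pow_pos (by omega) 2
        exact_mod_cast this.ne'
      rw [hy] at hA' hB' ⊢
      have e1 : ((Qz z * v ^ 2 : ℕ) : ℤ) = ((v ^ 2 : ℕ) : ℤ) * (Qz z : ℤ) := by push_cast; ring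
      have e2 : ((d * v ^ 2 : ℕ) : ℤ) = ((v ^ 2 : ℕ) : ℤ) * (d : ℤ) := by push_cast; ring
      have e3 : ((Qz z * (d * v ^ 2) : ℕ) : ℤ) = ((v ^ 2 : ℕ) : ℤ) * ((Qz z : ℤ) * (d : ℤ)) := by
        push_cast; ring
      rw [e1] at hA'
      rw [e2] at hB'
      rw [e3]
      apply mul_dvd_mul_left
      have hA2 := (mul_dvd_mul_iff_left hv2).mp hA'
      have hB2 := (mul_dvd_mul_iff_left hv2).mp hB'
      exact (Nat.Coprime.isCoprime hdQ.symm).mul_dvd hA2 hB2
    · intro h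
      refine ⟨(h.of_dvd ⟨d, by ring⟩).trans h1.symm, (h.of_dvd ⟨Qz z, by ring⟩).trans h2.symm⟩
  have hrho : rho z r n v = R (Qz z * v ^ 2) a := by
    unfold rho
    rw [show R (Qz z * v ^ 2) a = R (Qz z * v ^ 2) (4 * n + r * v ^ 2) from ?_]
    · rfl
    · apply R_congr
      rw [ha]
      exact Nat.ModEq.add_left _ (Nat.ModEq.mul_right' _ hr1)
  have e4 : Qz z * (d * v ^ 2) = (Qz z * v ^ 2) * ∏ p ∈ d.primeFactors, p := by
    rw [Nat.prod_primeFactors_of_squarefree hsq]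
    ring
  have hM : 0 < Qz z * v ^ 2 := Nat.mul_pos hQ (pow_pos (by omega) 2)
  have hext := R_ext a (Qz z * v ^ 2) hM d.primeFactors
    (fun p hp => ⟨(hpd p hp).1, (hpd p hp).2.1, (hpd p hp).2.2.1⟩)
  rw [hRR, e4, hrho]
  have hfil : d.primeFactors.filter (fun p => ¬ p ∣ Qz z * v ^ 2) =
      d.primeFactors.filter (fun p => ¬ p ∣ v) := by
    refine Finset.filter_congr fun p hp => ?_
    obtain ⟨hpp, _, _, _, hpQ⟩ := hpd p hp
    rw [hpp.dvd_mul]
    constructor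
    · intro h h1
      exact h (Or.inr (dvd_pow h1 two_ne_zero))
    · rintro h (h1 | h1)
      · exact hpQ h1
      · exact h (hpp.dvd_of_dvd_pow h1)
  rw [hfil] at hext
  have hj : ∀ p ∈ d.primeFactors.filter (fun p => ¬ p ∣ v),
      (1 + jacobiSym (a : ℤ) p) = 1 + jacobiSym (n : ℤ) p := by
    intro p hp
    rw [Finset.mem_filter] at hp
    obtain ⟨hpp, hp2, _, hpr, _⟩ := hpd p hp.1
    rw [jac_congr a (4 * n) p ?_, jac_four n p hpp hp2]
    rw [ha]
    have h3 : r' * v ^ 2 ≡ 0 [MOD p] :=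
      (Nat.modEq_zero_iff_dvd).mpr (Dvd.dvd.mul_right hpr _)
    simpa using Nat.ModEq.add_left (4 * n) h3
  rw [Finset.prod_congr rfl hj] at hext
  have hcast := congrArg (fun x : ℤ => (x : ℝ)) hext
  push_cast at hcast
  rw [hcast]

end Pool.Agent.Run7.h779.CG
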