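import Pool.Agent.Run7.h779.CG.R1

/-!
# R2: local factors of the number of roots
-/

set_option autoImplicit false

namespace Pool.Agent.Run7.h779.CG

open Finset Pool.Agent.H38R2.CG Pool.Agent.H38R2.CG2 Pool.Agent.H38R2.CG.TB3ah
open scoped Classical

lemma sqf_prod (u : Finset ℕ) (hu : ∀ p ∈ u, p.Prime) : Squarefree (prodS u) := by
  induction u using Finset.induction_on with
  | empty => simp [prodS]
  | insert p u hp ih =>
    unfold prodS at ih ⊢
    rw [Finset.prod_insert hp]
    have h1 := hu p (Finset.mem_insert_self p u)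
    have h2 : ∀ q ∈ u, q.Prime := fun q hq => hu q (Finset.mem_insert_of_mem hq)
    have hcop : Nat.Coprime p (∏ q ∈ u, q) := by
      refine Nat.Coprime.prod_right (fun q hq => ?_)
      exact (Nat.coprime_primes h1 (h2 q hq)).mpr (fun h => hp (h ▸ hq))
    exact (Nat.squarefree_mul hcop).mpr ⟨h1.squarefree, ih h2⟩

lemma mem_of_dvd_prodS {p : ℕ} (hp : p.Prime) {s : Finset ℕ} (hs : ∀ q ∈ s, q.Prime)
    (h : p ∣ prodS s) : p ∈ s := by
  obtain ⟨q, hq, hpq⟩ := (hp.prime.dvd_finsetProd_iff _).1 h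
  rwa [(Nat.prime_dvd_prime_iff_eq hp (hs q hq)).1 hpq]

lemma dvd_prodS {p : ℕ} {s : Finset ℕ} (h : p ∈ s) : p ∣ prodS s :=
  Finset.dvd_prod_of_mem _ h

lemma jac_nonneg (m : ℤ) (p : ℕ) : (0 : ℝ) ≤ 1 + (jacobiSym m p : ℝ) := by
  rcases jacobiSym.trichotomy m p with h | h | h <;> rw [h] <;> norm_num

lemma jac_le_two (m : ℤ) (p : ℕ) : 1 + (jacobiSym m p : ℝ) ≤ 2 := by
  rcases jacobiSym.trichotomy m p with h | h | h <;> rw [h] <;> norm_num

/-- the symbol of c^2 m is the symbol of m -/
lemma jac_sq_mul (g m p : ℕ) (hp : p.Prime) (hg : ¬ p ∣ g) :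
    jacobiSym ((g ^ 2 * m : ℕ) : ℤ) p = jacobiSym (m : ℤ) p := by
  push_cast
  rw [jacobiSym.mul_left, jacobiSym.sq_one', one_mul]
  have h1 : Nat.Coprime g p := ((Nat.Prime.coprime_iff_not_dvd hp).2 hg).symm
  exact_mod_cast h1

theorem T2_R2 : P2_R2 := by
  intro z r v c s t hv hcs hct hst hpr
  have hpc : ∀ p ∈ c, p.Prime ∧ ¬ p ∣ Qz z := fun p hp => hpr p (by simp [hp])
  have hps : ∀ p ∈ s, p.Prime ∧ ¬ p ∣ Qz z := fun p hp => hpr p (by simp [hp])
  have hpt : ∀ p ∈ t, p.Prime ∧ ¬ p ∣ Qz z := fun p hp => hpr p (by simp [hp])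
  have hQ := Qz_pos z
  set m : ℕ := prodS s * prodS t with hm
  set n : ℕ := prodS c ^ 2 * m with hn
  have hmU : m = prodS (s ∪ t) := by
    rw [hm]
    unfold prodS
    rw [Finset.prod_union hst]
  have hpst : ∀ p ∈ s ∪ t, p.Prime := by
    intro p hp
    rw [Finset.mem_union] at hp
    rcases hp with h | h
    · exact (hps p h).1
    · exact (hpt p h).1
  have hmsq : Squarefree m := by
    rw [hmU]
    exact sqf_prod _ hpst
  have hcd : Disjoint c (s ∪ t) := Finset.disjoint_union_right.mpr ⟨hcs, hct⟩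
  -- split of v
  set F : Finset ℕ := v.primeFactors.filter (fun p => ¬ p ∣ Qz z) with hF
  set w : ℕ := qpart z v with hw
  set v' : ℕ := ∏ p ∈ F, p ^ (v.factorization p) with hv'
  have hvw : w * v' = v := by
    rw [hw, hv', hF]
    unfold qpart
    rw [Finset.prod_filter_mul_prod_filter_not]
    exact Nat.prod_factorization_pow_eq_self (by omega)
  have hFp : ∀ p ∈ F, p.Prime ∧ p ∣ v ∧ ¬ p ∣ Qz z ∧ p ≠ 2 := by
    intro p hp
    rw [hF, Finset.mem_filter] at hp
    refine ⟨Nat.prime_of_mem_primeFactors hp.1, Nat.dvd_of_mem_primeFactors hp.1, hp.2, ?_⟩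
    rintro rfl
    exact hp.2 (two_dvd_Qz z)
  have hw0 : 0 < w := by
    rcases Nat.eq_zero_or_pos w with h | h
    · rw [h, zero_mul] at hvw
      omega
    · exact h
  have hv'0 : 0 < v' := by
    rcases Nat.eq_zero_or_pos v' with h | h
    · rw [h, mul_zero] at hvw
      omega
    · exact h
  have hcop : Nat.Coprime (Qz z * w ^ 2) (v' ^ 2) := by
    apply Nat.Coprime.pow_right
    apply Nat.Coprime.mul_left
    · rw [hv']
      apply Nat.Coprime.prod_right
      intro p hp
      apply Nat.Coprime.pow_right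
      exact ((Nat.Prime.coprime_iff_not_dvd (hFp p hp).1).2 (hFp p hp).2.2.1).symm
    · apply Nat.Coprime.pow_left
      rw [hw, hv']
      unfold qpart
      apply Nat.Coprime.prod_left
      intro p hp
      apply Nat.Coprime.prod_right
      intro q hq
      apply Nat.Coprime.pow
      rw [Finset.mem_filter] at hp
      rw [Nat.coprime_primes (Nat.prime_of_mem_primeFactors hp.1) (hFp q hq).1]
      rintro rfl
      exact (hFp p hq).2.2.1 hp.2
  set a : ℕ := 4 * n + r * v ^ 2 with ha
  have hrho : rho z r n v = R (Qz z * w ^ 2) a * R (v' ^ 2) a := by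
    have h1 : rho z r n v = R (Qz z * v ^ 2) a := rfl
    have h2 : Qz z * v ^ 2 = (Qz z * w ^ 2) * v' ^ 2 := by
      rw [← hvw]
      ring
    rw [h1, h2, R_mul_eq a hcop (Nat.mul_pos hQ (pow_pos hw0 2)) (pow_pos hv'0 2)]
  have hrhoQ : rhoQ z r n v = R (Qz z * w ^ 2) a := rfl
  have hRa : R (v' ^ 2) a = R (v' ^ 2) (4 * n) := by
    apply R_congr
    rw [ha]
    have h1 : r * v ^ 2 ≡ 0 [MOD v' ^ 2] := by
      rw [Nat.modEq_zero_iff_dvd, ← hvw]
      exact ⟨r * w ^ 2, by ring⟩
    simpa using Nat.ModEq.add_left (4 * n) h1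
  have hprod : R (v' ^ 2) (4 * n) = ∏ p ∈ F, R ((p ^ (v.factorization p)) ^ 2) (4 * n) := by
    rw [hv', ← Finset.prod_pow]
    apply R_prod
    · intro p hp
      exact pow_pos (pow_pos (hFp p hp).1.pos _) 2
    · intro p hp q hq hpq
      apply Nat.Coprime.pow
      apply Nat.Coprime.pow
      exact (Nat.coprime_primes (hFp p hp).1 (hFp q hq).1).mpr hpq
  -- local bounds
  have hloc : ∀ p ∈ F, ((R ((p ^ (v.factorization p)) ^ 2) (4 * n) : ℕ) : ℝ) ≤
      if p ∈ c then (2 * p : ℝ) else 1 + (jacobiSym (m : ℤ) p : ℝ) := by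
    intro p hp
    obtain ⟨hpp, hpv, hpQ, hp2⟩ := hFp p hp
    have he : 1 ≤ v.factorization p := by
      exact (hpp.dvd_iff_one_le_factorization (by omega)).mp hpv
    set e := v.factorization p with hedef
    have h4 : 4 * n = (2 * prodS c) ^ 2 * m := by
      rw [hn]
      ring
    by_cases hpcm : p ∈ c
    · rw [if_pos hpcm]
      have hc0 : 0 < prodS c := Finset.prod_pos fun q hq => (hpc q hq).1.pos
      have h5 := pp_bound p e (2 * prodS c) m hpp (by omega) hmsq
      rw [if_neg hp2, ← h4] at h5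
      have h6 : Nat.gcd (2 * prodS c) (p ^ e) ≤ p := by
        obtain ⟨i, hi, hgi⟩ := (Nat.dvd_prime_pow hpp).mp (Nat.gcd_dvd_right (2 * prodS c) (p ^ e))
        rw [hgi]
        have h7 : p ^ i ∣ 2 * prodS c := by
          rw [← hgi]
          exact Nat.gcd_dvd_left _ _
        have h8 : Nat.Coprime (p ^ i) 2 :=
          Nat.Coprime.pow_left _ ((Nat.coprime_primes hpp Nat.prime_two).mpr hp2)
        have h9 : p ^ i ∣ prodS c := h8.dvd_of_dvd_mul_left h7
        have hi1 : i ≤ 1 := by
          by_contra hcon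
          have h10 : p * p ∣ prodS c := by
            refine dvd_trans ?_ h9
            rw [← sq]
            exact pow_dvd_pow p (by omega)
          have h11 := (sqf_prod c (fun q hq => (hpc q hq).1)) p h10
          exact hpp.one_lt.ne' (Nat.isUnit_iff.1 h11)
        calc p ^ i ≤ p ^ 1 := Nat.pow_le_pow_right hpp.pos hi1
          _ = p := pow_one p
      have h7 : R ((p ^ e) ^ 2) (4 * n) ≤ 2 * p := h5.trans (Nat.mul_le_mul_left _ h6)
      exact_mod_cast h7
    · rw [if_neg hpcm]
      have hpc' : ¬ p ∣ prodS c := fun h =>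
        hpcm (mem_of_dvd_prodS hpp (fun q hq => (hpc q hq).1) h)
      by_cases hpm : p ∣ m
      · have h5 : R ((p ^ e) ^ 2) (4 * n) = 0 := by
          unfold R
          rw [Finset.card_eq_zero, Finset.filter_eq_empty_iff]
          intro u _ hu
          have hpk : p ^ 2 ∣ (p ^ e) ^ 2 := by
            rw [← pow_mul]
            exact pow_dvd_pow p (by omega)
          have h6 : p ∣ u ^ 2 := (hu.dvd_iff ((dvd_pow_self p two_ne_zero).trans hpk)).mpr (by
            rw [h4]
            exact Dvd.dvd.mul_left hpm _)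
          have h7 : p ^ 2 ∣ 4 * n := (hu.dvd_iff hpk).mp
            (pow_dvd_pow_of_dvd (hpp.dvd_of_dvd_pow h6) 2)
          rw [h4] at h7
          have h8 : ¬ p ∣ 2 * prodS c := by
            intro h
            rcases (hpp.dvd_mul).1 h with h1 | h1
            · exact hp2 ((Nat.prime_dvd_prime_iff_eq hpp Nat.prime_two).1 h1)
            · exact hpc' h1
          have h9 : Nat.Coprime (p ^ 2) ((2 * prodS c) ^ 2) :=
            Nat.Coprime.pow 2 2 ((Nat.Prime.coprime_iff_not_dvd hpp).2 h8)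
          have h10 : p ^ 2 ∣ m := h9.dvd_of_dvd_mul_left h7
          have h11 := hmsq p (by rwa [← sq])
          exact hpp.one_lt.ne' (Nat.isUnit_iff.1 h11)
        rw [h5, Nat.cast_zero]
        exact jac_nonneg _ _
      · have h6 : ¬ p ∣ 4 * n := by
          rw [h4]
          intro h
          rcases (hpp.dvd_mul).1 h with h1 | h1
          · have h2 := hpp.dvd_of_dvd_pow h1
            rcases (hpp.dvd_mul).1 h2 with h3 | h3
            · exact hp2 ((Nat.prime_dvd_prime_iff_eq hpp Nat.prime_two).1 h3)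
            · exact hpc' h3
          · exact hpm h1
        have h7 := R_pp p (4 * n) (e * 2) hpp hp2 h6 (by omega)
        rw [pow_mul] at h7
        rw [jac_four n p hpp hp2, hn, jac_sq_mul _ _ _ hpp hpc'] at h7
        have h8 := congrArg (fun x : ℤ => (x : ℝ)) h7
        push_cast at h8
        rw [← hn] at h8
        exact h8.le
  have hR : ((R (v' ^ 2) a : ℕ) : ℝ) ≤ tau c v *
      ∏ p ∈ v.primeFactors.filter (fun p => ¬ p ∣ Qz z ∧ p ∉ c),
        (1 + (jacobiSym (m : ℤ) p : ℝ)) := by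
    rw [hRa, hprod]
    push_cast
    refine (Finset.prod_le_prod (fun _ _ => Nat.cast_nonneg _) hloc).trans (le_of_eq ?_)
    rw [← Finset.prod_filter_mul_prod_filter_not F (fun p => p ∈ c)]
    congr 1
    · unfold tau
      have hset : F.filter (fun p => p ∈ c) = c.filter (fun p => p ∣ v) := by
        ext p
        simp only [hF, Finset.mem_filter, Nat.mem_primeFactors]
        constructor
        · rintro ⟨⟨⟨_, h1, _⟩, _⟩, h2⟩
          exact ⟨h2, h1⟩
        · rintro ⟨h1, h2⟩
          exact ⟨⟨⟨(hpc p h1).1, h2, by omega⟩, (hpc p h1).2⟩, h1⟩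
      rw [← hset]
      refine Finset.prod_congr rfl fun p hp => ?_
      rw [Finset.mem_filter] at hp
      rw [if_pos hp.2]
    · have hset : F.filter (fun p => ¬ p ∈ c) =
          v.primeFactors.filter (fun p => ¬ p ∣ Qz z ∧ p ∉ c) := by
        rw [hF, Finset.filter_filter]
      rw [← hset]
      refine Finset.prod_congr rfl fun p hp => ?_
      rw [Finset.mem_filter] at hp
      rw [if_neg hp.2]
  rw [hrho, hrhoQ]
  push_cast
  exact mul_le_mul_of_nonneg_left hR (Nat.cast_nonneg _)

end Pool.Agent.Run7.h779.CG
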