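import Pool.Agent.H38R2.CG2.Stubs
import Pool.Agent.H38R2.CG.TB3a

/-!
# Number of square roots modulo M
-/

set_option autoImplicit false

namespace Pool.Agent.Run7.h779.CG

open Finset Pool.Agent.H38R2.CG Pool.Agent.H38R2.CG2 Pool.Agent.H38R2.CG.TB3ah
open scoped Classical

lemma R_congr {M a b : ℕ} (h : a ≡ b [MOD M]) : R M a = R M b := by
  unfold R
  congr 1
  refine Finset.filter_congr fun u _ => ?_
  exact ⟨fun h1 => h1.trans h, fun h1 => h1.trans h.symm⟩

lemma R_mul_eq {M N : ℕ} (a : ℕ) (h : M.Coprime N) (hM : 0 < M) (hN : 0 < N) :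
    R (M * N) a = R M a * R N a := by
  apply le_antisymm (R_mul a h)
  unfold R
  rw [← Finset.card_product]
  apply Finset.card_le_card_of_injOn
    (fun x : ℕ × ℕ => ((Nat.chineseRemainder h x.1 x.2 : ℕ)) % (M * N))
  · rintro ⟨u, w⟩ hx
    simp only [Finset.coe_product, Finset.coe_filter, Finset.mem_range, Set.mem_prod,
      Set.mem_ofPred_eq] at hx
    obtain ⟨⟨hu1, hu2⟩, hw1, hw2⟩ := hx
    simp only [Finset.coe_filter, Finset.mem_range, Set.mem_ofPred_eq]
    refine ⟨Nat.mod_lt _ (Nat.mul_pos hM hN), ?_⟩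
    have hk := (Nat.chineseRemainder h u w).2
    refine ((Nat.mod_modEq _ _).pow 2).trans ?_
    rw [← Nat.modEq_and_modEq_iff_modEq_mul h]
    exact ⟨(hk.1.pow 2).trans hu2, (hk.2.pow 2).trans hw2⟩
  · rintro ⟨u, w⟩ hx ⟨u', w'⟩ hx' hxx
    simp only [Finset.coe_product, Finset.coe_filter, Finset.mem_range, Set.mem_prod,
      Set.mem_ofPred_eq] at hx hx'
    simp only at hxx
    have hk := (Nat.chineseRemainder h u w).2
    have hk' := (Nat.chineseRemainder h u' w').2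
    have h1 : ((Nat.chineseRemainder h u w : ℕ)) ≡ (Nat.chineseRemainder h u' w' : ℕ)
        [MOD M * N] := hxx
    rw [← Nat.modEq_and_modEq_iff_modEq_mul h] at h1
    have h2 : u ≡ u' [MOD M] := hk.1.symm.trans (h1.1.trans hk'.1)
    have h3 : w ≡ w' [MOD N] := hk.2.symm.trans (h1.2.trans hk'.2)
    rw [Nat.ModEq.eq_of_lt_of_lt h2 hx.1.1 hx'.1.1, Nat.ModEq.eq_of_lt_of_lt h3 hx.2.1 hx'.2.1]

/-- modulo an odd prime -/
lemma R_prime (p a : ℕ) (hp : p.Prime) (hp2 : p ≠ 2) :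
    ((R p a : ℕ) : ℤ) = 1 + jacobiSym (a : ℤ) p := by
  have : Fact p.Prime := ⟨hp⟩
  have h1 := legendreSym.card_sqrts p hp2 (a : ℤ)
  rw [jacobiSym.legendreSym.to_jacobiSym] at h1
  rw [add_comm, ← h1]
  congr 1
  unfold R
  refine Finset.card_bij (fun (u : ℕ) _ => ((u : ℕ) : ZMod p)) ?_ ?_ ?_
  · intro u hu
    rw [Finset.mem_filter] at hu
    rw [Set.mem_toFinset, Set.mem_ofPred_eq]
    have h2 := (ZMod.natCast_eq_natCast_iff _ _ _).mpr hu.2
    push_cast at h2 ⊢
    exact h2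
  · intro u hu w hw huw
    rw [Finset.mem_filter, Finset.mem_range] at hu hw
    have h2 := (ZMod.natCast_eq_natCast_iff _ _ _).mp huw
    exact Nat.ModEq.eq_of_lt_of_lt h2 hu.1 hw.1
  · intro b hb
    rw [Set.mem_toFinset, Set.mem_ofPred_eq] at hb
    refine ⟨b.val, ?_, ZMod.natCast_zmod_val b⟩
    rw [Finset.mem_filter, Finset.mem_range]
    refine ⟨ZMod.val_lt b, ?_⟩
    rw [← ZMod.natCast_eq_natCast_iff]
    push_cast
    rw [ZMod.natCast_zmod_val]
    push_cast at hb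
    exact hb

/-- Hensel step -/
lemma R_step (p a k : ℕ) (hp : p.Prime) (hp2 : p ≠ 2) (hpa : ¬ p ∣ a) (hk : 1 ≤ k) :
    R (p ^ (k + 1)) a = R (p ^ k) a := by
  have : Fact p.Prime := ⟨hp⟩
  have hp0 : 0 < p := hp.pos
  have hpI : Prime (p : ℤ) := Nat.prime_iff_prime_int.1 hp
  have hdvd : p ^ k ∣ p ^ (k + 1) := pow_dvd_pow p (by omega)
  have hunit : ∀ w : ℕ, w ^ 2 ≡ a [MOD p ^ k] → ¬ p ∣ w := by
    intro w hw hpw
    have h1 : p ∣ p ^ k := dvd_pow_self p (by omega)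
    exact hpa ((hw.dvd_iff h1).mp (dvd_pow hpw two_ne_zero))
  unfold R
  apply Finset.card_bij (fun u _ => u % p ^ k)
  · intro u hu
    rw [Finset.mem_filter, Finset.mem_range] at hu ⊢
    refine ⟨Nat.mod_lt _ (pow_pos hp0 k), ?_⟩
    exact ((Nat.mod_modEq u _).pow 2).trans (hu.2.of_dvd hdvd)
  · intro u hu w hw huw
    rw [Finset.mem_filter, Finset.mem_range] at hu hw
    have hu1 := hunit u (hu.2.of_dvd hdvd)
    have h1 : ((p ^ k : ℕ) : ℤ) ∣ (w : ℤ) - u := Nat.modEq_iff_dvd.mp huw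
    have h2 : ((p ^ (k + 1) : ℕ) : ℤ) ∣ (w : ℤ) ^ 2 - (u : ℤ) ^ 2 := by
      have := Nat.modEq_iff_dvd.mp (hu.2.trans hw.2.symm)
      push_cast at this ⊢
      exact this
    have h3 : (w : ℤ) ^ 2 - (u : ℤ) ^ 2 = ((w : ℤ) - u) * ((w : ℤ) + u) := by ring
    rw [h3] at h2
    have hpd : (p : ℤ) ∣ (w : ℤ) - u := by
      refine dvd_trans ?_ h1
      push_cast
      exact dvd_pow_self _ (by omega)
    have h4 : ¬ (p : ℤ) ∣ (w : ℤ) + u := by
      intro h4
      have h5 : (p : ℤ) ∣ 2 * (u : ℤ) := by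
        have := dvd_sub h4 hpd
        have e : (w : ℤ) + u - ((w : ℤ) - u) = 2 * u := by ring
        rwa [e] at this
      rcases hpI.dvd_mul.1 h5 with h6 | h6
      · have h7 : p ∣ 2 := by exact_mod_cast h6
        exact hp2 ((Nat.prime_dvd_prime_iff_eq hp Nat.prime_two).1 h7)
      · exact hu1 (by exact_mod_cast h6)
    have h5 : IsCoprime ((p ^ (k + 1) : ℕ) : ℤ) ((w : ℤ) + u) := by
      push_cast
      exact IsCoprime.pow_left ((Prime.coprime_iff_not_dvd hpI).2 h4)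
    have h6 : ((p ^ (k + 1) : ℕ) : ℤ) ∣ (w : ℤ) - u := h5.dvd_of_dvd_mul_right h2
    exact Nat.ModEq.eq_of_lt_of_lt (Nat.modEq_iff_dvd.mpr h6) hu.1 hw.1
  · intro w hw
    rw [Finset.mem_filter, Finset.mem_range] at hw
    have hw1 := hunit w hw.2
    obtain ⟨c, hc⟩ : ((p ^ k : ℕ) : ℤ) ∣ (a : ℤ) - (w : ℤ) ^ 2 := by
      have := Nat.modEq_iff_dvd.mp hw.2
      push_cast at this ⊢
      exact this
    set t : ℕ := ((c : ZMod p) * (2 * (w : ZMod p))⁻¹).val with ht
    have h2w : (2 * (w : ZMod p)) ≠ 0 := by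
      intro h0
      have h1 : ((2 * w : ℕ) : ZMod p) = 0 := by push_cast; exact h0
      rw [ZMod.natCast_eq_zero_iff] at h1
      rcases (hp.dvd_mul).1 h1 with h6 | h6
      · exact hp2 ((Nat.prime_dvd_prime_iff_eq hp Nat.prime_two).1 h6)
      · exact hw1 h6
    have ht2 : ((t : ℕ) : ZMod p) = (c : ZMod p) * (2 * (w : ZMod p))⁻¹ := by
      rw [ht, ZMod.natCast_zmod_val]
    obtain ⟨e, he⟩ : (p : ℤ) ∣ c - 2 * w * t := by
      rw [← ZMod.intCast_zmod_eq_zero_iff_dvd]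
      push_cast
      rw [ht2, mul_comm (c : ZMod p), ← mul_assoc, mul_inv_cancel₀ h2w]
      ring
    refine ⟨(w + t * p ^ k) % p ^ (k + 1), ?_, ?_⟩
    · rw [Finset.mem_filter, Finset.mem_range]
      refine ⟨Nat.mod_lt _ (pow_pos hp0 _), ?_⟩
      refine ((Nat.mod_modEq _ _).pow 2).trans ?_
      rw [Nat.modEq_iff_dvd]
      obtain ⟨j, rfl⟩ : ∃ j, k = j + 1 := ⟨k - 1, by omega⟩
      refine ⟨e - t ^ 2 * p ^ j, ?_⟩
      push_cast at hc ⊢
      have h7 : c = 2 * w * t + p * e := by linarith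
      rw [h7] at hc
      have h8 : (a : ℤ) = (w : ℤ) ^ 2 + (p : ℤ) ^ (j + 1) * (2 * w * t + p * e) := by linarith
      rw [h8]
      ring
    · rw [Nat.mod_mod_of_dvd _ hdvd, Nat.add_mul_mod_self_right]
      exact Nat.mod_eq_of_lt hw.1

lemma R_pp (p a k : ℕ) (hp : p.Prime) (hp2 : p ≠ 2) (hpa : ¬ p ∣ a) (hk : 1 ≤ k) :
    ((R (p ^ k) a : ℕ) : ℤ) = 1 + jacobiSym (a : ℤ) p := by
  induction k with
  | zero => omega
  | succ k ih =>
    rcases Nat.eq_zero_or_pos k with h | h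
    · subst h
      rw [zero_add, pow_one]
      exact R_prime p a hp hp2
    · rw [R_step p a k hp hp2 hpa h]
      exact ih h

/-- multiplying the modulus by an odd prime -/
lemma R_times (p a M : ℕ) (hp : p.Prime) (hp2 : p ≠ 2) (hpa : ¬ p ∣ a) (hM : 0 < M) :
    ((R (M * p) a : ℕ) : ℤ) = (R M a : ℕ) * (if p ∣ M then 1 else 1 + jacobiSym (a : ℤ) p) := by
  have hp0 : 0 < p := hp.pos
  by_cases h : p ∣ M
  · rw [if_pos h, mul_one]
    obtain ⟨k, M', hM', hMe⟩ := Nat.exists_eq_pow_mul_and_not_dvd (n := M) hM.ne' p hp.ne_one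
    have hM'0 : 0 < M' := by
      rcases Nat.eq_zero_or_pos M' with h0 | h0
      · rw [h0, mul_zero] at hMe
        omega
      · exact h0
    have hk : 1 ≤ k := by
      by_contra hk
      have : k = 0 := by omega
      rw [this, pow_zero, one_mul] at hMe
      rw [hMe] at h
      exact hM' h
    have hc : ∀ j : ℕ, Nat.Coprime (p ^ j) M' := fun j =>
      Nat.Coprime.pow_left _ ((Nat.Prime.coprime_iff_not_dvd hp).2 hM')
    have e1 : M * p = p ^ (k + 1) * M' := by
      rw [hMe]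
      ring
    rw [e1, R_mul_eq a (hc _) (pow_pos hp0 _) hM'0, R_step p a k hp hp2 hpa hk]
    conv_rhs => rw [hMe, R_mul_eq a (hc _) (pow_pos hp0 _) hM'0]
  · rw [if_neg h, R_mul_eq a ((Nat.Prime.coprime_iff_not_dvd hp).2 h).symm hM hp0]
    push_cast
    rw [R_prime p a hp hp2]

/-- multiplying the modulus by distinct odd primes -/
lemma R_ext (a M : ℕ) (hM : 0 < M) (S : Finset ℕ)
    (hS : ∀ p ∈ S, p.Prime ∧ p ≠ 2 ∧ ¬ p ∣ a) :
    ((R (M * ∏ p ∈ S, p) a : ℕ) : ℤ) = (R M a : ℕ) *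
      ∏ p ∈ S.filter (fun p => ¬ p ∣ M), (1 + jacobiSym (a : ℤ) p) := by
  induction S using Finset.induction_on with
  | empty => simp
  | insert p S hpS ih =>
    have ih' := ih (fun q hq => hS q (Finset.mem_insert_of_mem hq))
    obtain ⟨hp, hp2, hpa⟩ := hS p (Finset.mem_insert_self _ _)
    rw [Finset.prod_insert hpS]
    have e1 : M * (p * ∏ q ∈ S, q) = (M * ∏ q ∈ S, q) * p := by ring
    have hpos : 0 < M * ∏ q ∈ S, q := by
      apply Nat.mul_pos hM
      exact Finset.prod_pos fun q hq => (hS q (Finset.mem_insert_of_mem hq)).1.pos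
    rw [e1, R_times p a _ hp hp2 hpa hpos, ih']
    have hiff : p ∣ M * ∏ q ∈ S, q ↔ p ∣ M := by
      constructor
      · intro h
        rcases (hp.dvd_mul).1 h with h1 | h1
        · exact h1
        · exfalso
          obtain ⟨q, hq, hpq⟩ := (hp.prime.dvd_finsetProd_iff _).1 h1
          have := (Nat.prime_dvd_prime_iff_eq hp (hS q (Finset.mem_insert_of_mem hq)).1).1 hpq
          rw [this] at hpS
          exact hpS hq
      · intro h
        exact Dvd.dvd.mul_right h _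
    rw [Finset.filter_insert]
    by_cases hpM : p ∣ M
    · rw [if_pos (hiff.mpr hpM), if_neg (not_not.mpr hpM), mul_one]
    · rw [if_neg (fun h => hpM (hiff.mp h)), if_pos hpM, Finset.prod_insert]
      · ring
      · rw [Finset.mem_filter]
        exact fun h => hpS h.1

/-- product of pairwise coprime moduli -/
lemma R_prod (a : ℕ) (S : Finset ℕ) (g : ℕ → ℕ) (hg : ∀ p ∈ S, 0 < g p)
    (hc : ∀ p ∈ S, ∀ q ∈ S, p ≠ q → (g p).Coprime (g q)) :
    R (∏ p ∈ S, g p) a = ∏ p ∈ S, R (g p) a := by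
  induction S using Finset.induction_on with
  | empty =>
    simp only [Finset.prod_empty]
    unfold R
    rw [Finset.range_one, Finset.filter_singleton, if_pos (Nat.modEq_one), Finset.card_singleton]
  | insert p S hpS ih =>
    rw [Finset.prod_insert hpS, Finset.prod_insert hpS, R_mul_eq a, ih]
    · exact fun q hq => hg q (Finset.mem_insert_of_mem hq)
    · exact fun q hq q' hq' => hc q (Finset.mem_insert_of_mem hq) q' (Finset.mem_insert_of_mem hq')
    · apply Nat.Coprime.prod_right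
      intro q hq
      apply hc p (Finset.mem_insert_self _ _) q (Finset.mem_insert_of_mem hq)
      rintro rfl
      exact hpS hq
    · exact hg p (Finset.mem_insert_self _ _)
    · exact Finset.prod_pos fun q hq => hg q (Finset.mem_insert_of_mem hq)

end Pool.Agent.Run7.h779.CG
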