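import Pool.Agent.H38R2.CG2.Stubs
import Pool.Agent.H38R2.CG.TB1

/-!
# T1: the weighted sum over D for one n
-/

set_option autoImplicit false

namespace Pool.Agent.Run7.h779.CG

open Finset Pool.Agent.H38R2.CG Pool.Agent.H38R2.CG2 Pool.Agent.H38R2.CG.TB1h
open scoped Classical

theorem T2_T1 : P2_T1a → P2_WT → P2_T1 := by
  intro hA hWT z r X n η P δ C0 ρ hr hη hη1 hX hn hδ hS
  have hDpos : ∀ D ∈ DD z r X η, X < D := by
    intro D hD
    rw [DD, Finset.mem_filter, Finset.mem_Ioc] at hD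
    exact hD.1.1
  have hw : ∀ D ∈ DD z r X η, 0 ≤ wt ρ D ∧
      wt ρ D = ∑ d ∈ (Finset.Icc 1 X).filter (fun d => d ∣ D), ρ d := by
    intro D hD
    have := hDpos D hD
    exact hWT z X P δ C0 ρ hX hδ hS D (by omega)
  have h0 : ∑ D ∈ DD z r X η, wt ρ D * Rsum D n =
      ∑ D ∈ DD z r X η, wt ρ D * ∑ u ∈ Finset.Icc 1 (4 * n), T D n u 0 +
      2 * ∑ v ∈ Finset.Icc 1 (4 * n), ∑ D ∈ DD z r X η,
        wt ρ D * ∑ u ∈ Finset.Icc 1 (4 * n), T D n u (v : ℤ) := by
    rw [Finset.sum_comm (s := Finset.Icc 1 (4 * n)), Finset.mul_sum, ← Finset.sum_add_distrib]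
    refine Finset.sum_congr rfl fun D _ => ?_
    rw [Rsum_eq D n, ← Finset.mul_sum]
    ring
  rw [h0]
  apply add_le_add
  · have h1 : ∑ D ∈ DD z r X η, wt ρ D * ∑ u ∈ Finset.Icc 1 (4 * n), T D n u 0 ≤
        ∑ D ∈ DD z r X η, wt ρ D * (if IsSquare n then (1 : ℝ) else 0) :=
      Finset.sum_le_sum (fun D hD =>
        mul_le_mul_of_nonneg_left (sum_T_zero D n (4 * n)) (hw D hD).1)
    refine h1.trans (le_of_eq ?_)
    split_ifs <;> simp
  · apply mul_le_mul_of_nonneg_left _ (by norm_num)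
    set V : ℕ := ⌊2 * √((n : ℝ) / X)⌋₊ with hV
    have h1 : ∑ v ∈ Finset.Icc 1 (4 * n), ∑ D ∈ DD z r X η,
        wt ρ D * ∑ u ∈ Finset.Icc 1 (4 * n), T D n u (v : ℤ) =
        ∑ v ∈ (Finset.Icc 1 (4 * n)).filter (fun v => v ≤ V), ∑ D ∈ DD z r X η,
        wt ρ D * ∑ u ∈ Finset.Icc 1 (4 * n), T D n u (v : ℤ) := by
      rw [Finset.sum_filter]
      apply Finset.sum_congr rfl
      intro v _
      split_ifs with h
      · rfl
      · push Not at h
        have h2 : 2 * √((n : ℝ) / X) < v := by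
          rw [hV] at h
          exact Nat.lt_of_floor_lt h
        apply Finset.sum_eq_zero
        intro D hD
        rw [Finset.sum_eq_zero, mul_zero]
        intro u _
        exact T_large X D n u v hX hn (hDpos D hD) h2
    rw [h1]
    have h2 : ∑ v ∈ (Finset.Icc 1 (4 * n)).filter (fun v => v ≤ V), ∑ D ∈ DD z r X η,
        wt ρ D * ∑ u ∈ Finset.Icc 1 (4 * n), T D n u (v : ℤ) ≤
        ∑ v ∈ Finset.Icc 1 V, ∑ D ∈ DD z r X η,
        wt ρ D * ∑ u ∈ Finset.Icc 1 (4 * n), T D n u (v : ℤ) := by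
      apply Finset.sum_le_sum_of_subset_of_nonneg
      · intro v hv
        rw [Finset.mem_filter, Finset.mem_Icc] at hv
        rw [Finset.mem_Icc]
        exact ⟨hv.1.1, hv.2⟩
      · intro v _ _
        exact Finset.sum_nonneg (fun D hD => mul_nonneg (hw D hD).1
          (Finset.sum_nonneg (fun u _ => T_nonneg D n u v)))
    refine h2.trans ?_
    apply Finset.sum_le_sum
    intro v hv
    rw [Finset.mem_Icc] at hv
    set A : ℕ → ℝ := fun d => ∑ D ∈ (DD z r X η).filter (fun D => d ∣ D),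
      ∑ u ∈ Finset.Icc 1 (4 * n), T D n u (v : ℤ) with hAdef
    have h3 : ∑ D ∈ DD z r X η, wt ρ D * ∑ u ∈ Finset.Icc 1 (4 * n), T D n u (v : ℤ) =
        ∑ d ∈ Finset.Icc 1 X, ρ d * A d := by
      calc ∑ D ∈ DD z r X η, wt ρ D * ∑ u ∈ Finset.Icc 1 (4 * n), T D n u (v : ℤ)
          = ∑ D ∈ DD z r X η, ∑ d ∈ Finset.Icc 1 X, (if d ∣ D then
              ρ d * ∑ u ∈ Finset.Icc 1 (4 * n), T D n u (v : ℤ) else 0) := by
            refine Finset.sum_congr rfl fun D hD => ?_
            rw [(hw D hD).2, Finset.sum_mul, Finset.sum_filter]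
        _ = ∑ d ∈ Finset.Icc 1 X, ∑ D ∈ DD z r X η, (if d ∣ D then
              ρ d * ∑ u ∈ Finset.Icc 1 (4 * n), T D n u (v : ℤ) else 0) := Finset.sum_comm
        _ = ∑ d ∈ Finset.Icc 1 X, ρ d * A d := by
            refine Finset.sum_congr rfl fun d _ => ?_
            rw [hAdef]
            simp only
            rw [Finset.mul_sum, Finset.sum_filter]
    rw [h3]
    have h4 : ∀ d ∈ Finset.Icc 1 X, ρ d * A d ≤
        om X η v n / Qz z * (ρ d / d * (RR z r n v d : ℝ)) + |ρ d| * (RR z r n v d : ℝ) := by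
      intro d hd
      rw [Finset.mem_Icc] at hd
      by_cases hρ : ρ d = 0
      · rw [hρ]
        simp
      · have h5 := hA z r X n v d η hr hη hη1 hX hn hv.1 hd.1 (hS.supp d hρ).2.2.2.1
        have h6 : (∑ D ∈ (DD z r X η).filter (fun D => d ∣ D), ∑ u ∈ Finset.Icc 1 (4 * n),
            (if ((u : ℤ) ^ 2 - (D : ℤ) * (v : ℤ) ^ 2 = 4 * n) then
              phi (Real.log (((u : ℝ) + v * √(D : ℝ)) / ((u : ℝ) - v * √(D : ℝ)))) else 0)) =
            A d := by
          rw [hAdef]
          simp only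
          apply Finset.sum_congr rfl
          intro D _
          apply Finset.sum_congr rfl
          intro u _
          unfold T
          push_cast
          rfl
        rw [h6] at h5
        have hd0 : (0 : ℝ) < d := by exact_mod_cast hd.1
        have h7 : ρ d * (A d - (RR z r n v d : ℝ) * (om X η v n / (Qz z * d))) ≤
            |ρ d| * (RR z r n v d : ℝ) := by
          calc ρ d * (A d - (RR z r n v d : ℝ) * (om X η v n / (Qz z * d)))
              ≤ |ρ d * (A d - (RR z r n v d : ℝ) * (om X η v n / (Qz z * d)))| := le_abs_self _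
            _ = |ρ d| * |A d - (RR z r n v d : ℝ) * (om X η v n / (Qz z * d))| := abs_mul _ _
            _ ≤ |ρ d| * (RR z r n v d : ℝ) := mul_le_mul_of_nonneg_left h5 (abs_nonneg _)
        have h8 : ρ d * ((RR z r n v d : ℝ) * (om X η v n / (Qz z * d))) =
            om X η v n / Qz z * (ρ d / d * (RR z r n v d : ℝ)) := by
          rw [div_mul_eq_div_div]
          ring
        calc ρ d * A d = ρ d * (A d - (RR z r n v d : ℝ) * (om X η v n / (Qz z * d))) +
              ρ d * ((RR z r n v d : ℝ) * (om X η v n / (Qz z * d))) := by ring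
          _ ≤ |ρ d| * (RR z r n v d : ℝ) +
              om X η v n / Qz z * (ρ d / d * (RR z r n v d : ℝ)) := by
              rw [h8]
              linarith
          _ = _ := by ring
    refine (Finset.sum_le_sum h4).trans (le_of_eq ?_)
    rw [Finset.sum_add_distrib, Finset.mul_sum]

end Pool.Agent.Run7.h779.CG
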