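import Pool.Agent.H38R2.CG2.Stubs
import Pool.Agent.H38R2.CG.TB1a

/-!
# T1a: the sum over the D divisible by d for one n and one v (two sided)
-/

set_option autoImplicit false

namespace Pool.Agent.Run7.h779.CG

open Finset Filter Pool.Agent.H38R2.CG Pool.Agent.H38R2.CG2
open scoped Classical

namespace T1ah

open MeasureTheory

/-- a number just below x in a given residue class -/
lemma below (x : ℝ) (m c : ℕ) (hm : 1 ≤ m) (hc : c < m) (hx : (m : ℝ) < x) :
    ∃ u : ℕ, (u : ℝ) < x ∧ x ≤ u + m ∧ u % m = c := by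
  have h0 : 0 < ⌈x⌉₊ := by
    have : (m : ℝ) < ⌈x⌉₊ := lt_of_lt_of_le hx (Nat.le_ceil x)
    have : m < ⌈x⌉₊ := by exact_mod_cast this
    omega
  obtain ⟨N, hN⟩ : ∃ N, ⌈x⌉₊ = N + 1 := ⟨⌈x⌉₊ - 1, by omega⟩
  have hNx : (N : ℝ) < x := by
    rw [← Nat.lt_ceil, hN]; omega
  have hxN : x ≤ (N : ℝ) + 1 := by
    have := Nat.le_ceil x
    rw [hN] at this
    push_cast at this
    exact this
  have hmN : m ≤ N := by
    have h1 : (m : ℝ) < (N : ℝ) + 1 := lt_of_lt_of_le hx hxN
    have h2 : m < N + 1 := by exact_mod_cast h1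
    omega
  have hlt := Nat.mod_lt (N + m - c) (show 0 < m by omega)
  refine ⟨N - (N + m - c) % m, ?_, ?_, ?_⟩
  · refine lt_of_le_of_lt ?_ hNx
    exact_mod_cast Nat.sub_le _ _
  · have h3 : N + 1 ≤ N - (N + m - c) % m + m := by omega
    have h4 : ((N : ℝ) + 1) ≤ ((N - (N + m - c) % m : ℕ) : ℝ) + m := by exact_mod_cast h3
    linarith
  · have h5 : N - (N + m - c) % m ≡ c [MOD m] := by
      have h6 : (N - (N + m - c) % m) + (N + m - c) ≡ N [MOD m] := by
        have h7 : (N + m - c) ≡ (N + m - c) % m [MOD m] := (Nat.mod_modEq _ _).symm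
        have h8 := Nat.ModEq.add_left (N - (N + m - c) % m) h7
        rw [Nat.sub_add_cancel (by omega)] at h8
        exact h8
      have h9 : (N - (N + m - c) % m) + (N + m - c) + c ≡ N + c [MOD m] := h6.add_right c
      have h10 : (N - (N + m - c) % m) + (N + m - c) + c = (N - (N + m - c) % m) + N + m := by
        omega
      rw [h10] at h9
      have h11 : (N - (N + m - c) % m) + N + m ≡ (N - (N + m - c) % m) + N [MOD m] := by
        simp [Nat.ModEq]
      have h12 : (N - (N + m - c) % m) + N ≡ c + N [MOD m] := by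
        rw [add_comm c N]
        exact h11.symm.trans h9
      exact Nat.ModEq.add_right_cancel' N h12
    rw [Nat.ModEq, Nat.mod_eq_of_lt hc] at h5
    exact h5

/-- lower bound for the sum of an antitone function over an arithmetic progression -/
lemma prog_low (H : ℝ → ℝ) (a b : ℝ) (ha : 0 ≤ a) (hab : a ≤ b) (m : ℕ) (hm : 1 ≤ m) (c : ℕ)
    (hcm : c < m) (U : Finset ℕ)
    (hU : ∀ u : ℕ, a < (u : ℝ) → (u : ℝ) ≤ b → u % m = c → u ∈ U ∨ H u = 0)
    (hanti : AntitoneOn H (Set.Icc a b)) (h0 : ∀ x : ℝ, 0 ≤ H x)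
    (h1 : ∀ x : ℝ, H x ≤ 1) (hc : Continuous H) :
    (1 / (m : ℝ)) * ∫ x in a..b, H x ≤ 1 + ∑ u ∈ U, H (u : ℝ) := by
  have hm' : (0 : ℝ) < m := by exact_mod_cast hm
  set G : ℝ → ℝ := fun x => (Set.Ioc a (a + m)).indicator (fun _ => (1 : ℝ)) x +
    ∑ u ∈ U, (Set.Ioc (u : ℝ) (u + m)).indicator (fun _ => H (u : ℝ)) x with hG
  have hpt : ∀ x ∈ Set.Ioc a b, H x ≤ G x := by
    intro x hx
    have hs0 : ∀ u ∈ U, 0 ≤ (Set.Ioc (u : ℝ) (u + m)).indicator (fun _ => H (u : ℝ)) x :=
      fun u _ => Set.indicator_nonneg (fun _ _ => h0 _) _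
    by_cases hxa : x ≤ a + m
    · have e1 : (Set.Ioc a (a + m)).indicator (fun _ => (1 : ℝ)) x = 1 :=
        Set.indicator_of_mem (show x ∈ Set.Ioc a (a + m) from ⟨hx.1, hxa⟩) _
      rw [hG]
      simp only
      rw [e1]
      have := Finset.sum_nonneg hs0
      linarith [h1 x]
    · push Not at hxa
      obtain ⟨u, hux, hxu, huc⟩ := below x m c hm hcm (by linarith)
      have hau : a < u := by linarith
      have hub : (u : ℝ) ≤ b := by linarith [hx.2]
      have hHx : H x ≤ H u := hanti ⟨hau.le, hub⟩ ⟨hx.1.le, hx.2⟩ hux.le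
      have e2 : 0 ≤ (Set.Ioc a (a + m)).indicator (fun _ => (1 : ℝ)) x :=
        Set.indicator_nonneg (fun _ _ => zero_le_one) _
      rw [hG]
      simp only
      rcases hU u hau hub huc with h | h
      · have e3 := Finset.single_le_sum hs0 h
        rw [Set.indicator_of_mem (show x ∈ Set.Ioc (u : ℝ) (u + m) from ⟨hux, hxu⟩)] at e3
        linarith
      · have := Finset.sum_nonneg hs0
        rw [h] at hHx
        linarith
  have hG0 : ∀ x, 0 ≤ G x := by
    intro x
    rw [hG]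
    simp only
    refine add_nonneg (Set.indicator_nonneg (fun _ _ => zero_le_one) _)
      (Finset.sum_nonneg fun u _ => Set.indicator_nonneg (fun _ _ => h0 _) _)
  have hi1 : Integrable ((Set.Ioc a (a + m)).indicator (fun _ => (1 : ℝ))) := by
    rw [integrable_indicator_iff measurableSet_Ioc]
    exact integrableOn_const (by simp)
  have hi2 : ∀ u ∈ U, Integrable ((Set.Ioc (u : ℝ) (u + m)).indicator (fun _ => H (u : ℝ))) := by
    intro u _
    rw [integrable_indicator_iff measurableSet_Ioc]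
    exact integrableOn_const (by simp)
  have hi3 : Integrable (fun x => ∑ u ∈ U,
      (Set.Ioc (u : ℝ) (u + m)).indicator (fun _ => H (u : ℝ)) x) :=
    integrable_finsetSum U hi2
  have hGi : Integrable G := hi1.add hi3
  have hGint : ∫ x, G x = m + ∑ u ∈ U, H (u : ℝ) * m := by
    rw [hG]
    rw [integral_add hi1 hi3, integral_finsetSum U hi2]
    congr 1
    · rw [integral_indicator measurableSet_Ioc, setIntegral_const,
        Real.volume_real_Ioc_of_le (by linarith)]
      simp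
    · refine Finset.sum_congr rfl fun u _ => ?_
      rw [integral_indicator measurableSet_Ioc, setIntegral_const,
        Real.volume_real_Ioc_of_le (by linarith)]
      simp only [smul_eq_mul]
      ring
  have h3 : ∫ x in a..b, H x ≤ ∫ x, G x := by
    rw [intervalIntegral.integral_of_le hab]
    calc ∫ x in Set.Ioc a b, H x ≤ ∫ x in Set.Ioc a b, G x :=
          setIntegral_mono_on (hc.integrableOn_Icc.mono_set Set.Ioc_subset_Icc_self)
            hGi.integrableOn measurableSet_Ioc hpt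
      _ ≤ ∫ x, G x := setIntegral_le_integral hGi (ae_of_all _ hG0)
  rw [hGint] at h3
  rw [one_div, ← div_eq_inv_mul, div_le_iff₀ hm']
  rw [← Finset.sum_mul] at h3
  linarith

lemma HH_zero (n u : ℕ) (hn : 1 ≤ n) (hu : 4 * n < u) : TB1ah.HH n u = 0 := by
  have hn' : (1 : ℝ) ≤ n := by exact_mod_cast hn
  have hu' : 4 * (n : ℝ) + 1 ≤ u := by exact_mod_cast hu
  have hsn : √(n : ℝ) ^ 2 = n := Real.sq_sqrt (by linarith)
  have hsn0 : 0 < √(n : ℝ) := Real.sqrt_pos.mpr (by linarith)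
  unfold TB1ah.HH phi
  apply max_eq_left
  have h1 : (1 : ℝ) ≤ √((u : ℝ) ^ 2 - 4 * n) / (2 * √(n : ℝ)) := by
    rw [le_div_iff₀ (by positivity), one_mul]
    apply Real.le_sqrt_of_sq_le
    rw [mul_pow, hsn]
    nlinarith
  have h2 : Real.arsinh 1 ≤ Real.arsinh (√((u : ℝ) ^ 2 - 4 * n) / (2 * √(n : ℝ))) :=
    Real.arsinh_le_arsinh.mpr h1
  have h3 : (1 : ℝ) / 2 ≤ Real.arsinh 1 := by
    have h7 : (1 : ℝ) ≤ √(1 + (1 : ℝ) ^ 2) := by
      apply Real.le_sqrt_of_sq_le
      norm_num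
    rw [Real.arsinh, Real.le_log_iff_exp_le (by positivity)]
    have h4 : Real.exp (1 / 2) ^ 2 = Real.exp 1 := by
      rw [← Real.exp_nat_mul]
      norm_num
    have h5 : Real.exp (1 / 2) ≤ 2 := by
      have := Real.exp_one_lt_d9
      have h6 := Real.exp_pos (1 / 2)
      nlinarith
    calc Real.exp (1 / 2) ≤ 2 := h5
      _ = 1 + 1 := by norm_num
      _ ≤ 1 + √(1 + (1 : ℝ) ^ 2) := by gcongr
  have h8 := le_abs_self (2 * Real.arsinh (√((u : ℝ) ^ 2 - 4 * n) / (2 * √(n : ℝ))))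
  linarith

end T1ah

open TB1ah T1ah in
theorem T2_T1a : P2_T1a := by
  intro z r X n v d η hr hη hη1 hX hn hv hd _
  have hQ : 0 < Qz z := by omega
  have hn' : (0 : ℝ) < n := by exact_mod_cast hn
  have hX' : (0 : ℝ) < X := by exact_mod_cast hX
  have hv' : (0 : ℝ) < v := by exact_mod_cast hv
  have hd' : (0 : ℝ) < d := by exact_mod_cast hd
  have hQ' : (0 : ℝ) < Qz z := by exact_mod_cast hQ
  have hm : 1 ≤ Qz z * (d * v ^ 2) := Nat.one_le_iff_ne_zero.mpr (by positivity)
  set m : ℕ := Qz z * (d * v ^ 2) with hmdef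
  have hdvd1 : Qz z * v ^ 2 ∣ m := ⟨d, by rw [hmdef]; ring⟩
  have hdvd2 : d * v ^ 2 ∣ m := ⟨Qz z, by rw [hmdef]; ring⟩
  set a : ℝ := √(4 * (n : ℝ) + X * (v : ℝ) ^ 2) with ha
  set b : ℝ := √(4 * (n : ℝ) + ((1 + η) * X) * (v : ℝ) ^ 2) with hb
  have hab : a ≤ b := by
    apply Real.sqrt_le_sqrt
    have : (X : ℝ) * (v : ℝ) ^ 2 ≤ ((1 + η) * X) * (v : ℝ) ^ 2 := by
      apply mul_le_mul_of_nonneg_right _ (by positivity)
      nlinarith
    linarith
  have ha0 : 0 ≤ a := Real.sqrt_nonneg _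
  have hDD : ∀ D ∈ DD z r X η, (X : ℝ) < D ∧ (D : ℝ) ≤ (1 + η) * X ∧ D % Qz z = r := by
    intro D hD
    rw [DD, Finset.mem_filter, Finset.mem_Ioc] at hD
    refine ⟨by exact_mod_cast hD.1.1, ?_, hD.2⟩
    exact (Nat.le_floor_iff (by positivity)).mp hD.1.2
  set E : Finset ℕ := (DD z r X η).filter (fun D => d ∣ D) with hE
  set U : Finset ℕ := (Finset.Icc 1 (4 * n)).filter
    (fun u => ∃ D ∈ E, (u : ℤ) ^ 2 - (D : ℤ) * (v : ℤ) ^ 2 = 4 * n) with hU
  have hUab : ∀ u ∈ U, a < (u : ℝ) ∧ (u : ℝ) ≤ b := by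
    intro u hu
    rw [hU, Finset.mem_filter, Finset.mem_Icc] at hu
    obtain ⟨⟨hu1, _⟩, D, hD, h⟩ := hu
    obtain ⟨hD1, hD2, _⟩ := hDD D (Finset.mem_filter.mp hD).1
    have hR : (u : ℝ) ^ 2 - (D : ℝ) * (v : ℝ) ^ 2 = 4 * n := by exact_mod_cast h
    have hu0 : (0 : ℝ) ≤ u := Nat.cast_nonneg _
    have hv2 : (0 : ℝ) < (v : ℝ) ^ 2 := by positivity
    constructor
    · rw [ha, Real.sqrt_lt' (by exact_mod_cast hu1)]
      nlinarith
    · rw [hb]
      apply Real.le_sqrt_of_sq_le
      nlinarith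
  -- step 1: swap the sums
  have hstep1 : ∑ D ∈ E, ∑ u ∈ Finset.Icc 1 (4 * n),
      (if ((u : ℤ) ^ 2 - (D : ℤ) * (v : ℤ) ^ 2 = 4 * n) then
        phi (Real.log (((u : ℝ) + v * √(D : ℝ)) / ((u : ℝ) - v * √(D : ℝ)))) else 0) =
      ∑ u ∈ U, HH n u := by
    rw [Finset.sum_comm, hU, Finset.sum_filter]
    refine Finset.sum_congr rfl fun u hu => ?_
    rw [Finset.mem_Icc] at hu
    split_ifs with hex
    · obtain ⟨D, hD, h⟩ := hex
      rw [Finset.sum_eq_single_of_mem D hD]
      · rw [if_pos h, term_eq n v D u hn hu.1 h]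
      · intro D' _ hne
        rw [if_neg]
        intro h'
        apply hne
        have h5 : ((D' : ℤ) - D) * (v : ℤ) ^ 2 = 0 := by linear_combination h - h'
        rcases mul_eq_zero.mp h5 with h6 | h6
        · exact_mod_cast (sub_eq_zero.mp h6)
        · exfalso
          have : (v : ℤ) = 0 := by simpa using h6
          omega
    · refine Finset.sum_eq_zero fun D hD => ?_
      rw [if_neg]
      intro h
      exact hex ⟨D, hD, h⟩
  rw [hstep1]
  -- step 2: split into residue classes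
  set C : Finset ℕ := (Finset.range m).filter (fun u =>
    u ^ 2 ≡ 4 * n + r * v ^ 2 [MOD Qz z * v ^ 2] ∧ u ^ 2 ≡ 4 * n [MOD d * v ^ 2]) with hC
  have hmap : ∀ u ∈ U, u % m ∈ C := by
    intro u hu
    rw [hU, Finset.mem_filter, Finset.mem_Icc] at hu
    obtain ⟨⟨hu1, _⟩, D, hD, h⟩ := hu
    rw [hE, Finset.mem_filter] at hD
    obtain ⟨_, _, hDr⟩ := hDD D hD.1
    rw [hC, Finset.mem_filter, Finset.mem_range]
    have h6 : u ^ 2 = 4 * n + D * v ^ 2 := by
      have : (u : ℤ) ^ 2 = 4 * n + D * (v : ℤ) ^ 2 := by linarith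
      exact_mod_cast this
    have h7 : (u % m) ^ 2 ≡ u ^ 2 [MOD m] := (Nat.mod_modEq u _).pow 2
    refine ⟨Nat.mod_lt _ (by omega), ?_, ?_⟩
    · refine (h7.of_dvd hdvd1).trans ?_
      rw [h6]
      have h8 : D ≡ r [MOD Qz z] := by
        rw [Nat.ModEq, hDr, Nat.mod_eq_of_lt hr]
      exact Nat.ModEq.add_left _ (Nat.ModEq.mul_right' _ h8)
    · refine (h7.of_dvd hdvd2).trans ?_
      rw [h6]
      have h8 : D ≡ 0 [MOD d] := (Nat.modEq_zero_iff_dvd).mpr hD.2
      have h9 : D * v ^ 2 ≡ 0 * v ^ 2 [MOD d * v ^ 2] := Nat.ModEq.mul_right' _ h8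
      have h10 := Nat.ModEq.add_left (4 * n) h9
      simpa using h10
  rw [← Finset.sum_fiberwise_of_maps_to hmap]
  have hI := int_eq X n v η hη hX hn hv
  have h10 : 1 / (m : ℝ) * ((v : ℝ) ^ 2 * om X η v n) = om X η v n / (Qz z * d) := by
    rw [hmdef]
    push_cast
    field_simp
  have hfib : ∀ c ∈ C,
      |(∑ u ∈ U.filter (fun u => u % m = c), HH n (u : ℝ)) - om X η v n / (Qz z * d)| ≤ 1 := by
    intro c hcC
    rw [hC, Finset.mem_filter, Finset.mem_range] at hcC
    obtain ⟨hcm, hc1, hc2⟩ := hcC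
    rw [abs_le]
    constructor
    · have h9 := prog_low (HH n) a b ha0 hab m hm c hcm (U.filter (fun u => u % m = c))
        (by
          intro u hau hub huc
          by_cases hun : u ≤ 4 * n
          · left
            rw [Finset.mem_filter, hU, Finset.mem_filter, Finset.mem_Icc]
            have hu1 : 1 ≤ u := by
              have : (0 : ℝ) < u := lt_of_le_of_lt ha0 hau
              exact_mod_cast this
            have hucm : u ≡ c [MOD m] := by
              rw [Nat.ModEq, huc, Nat.mod_eq_of_lt hcm]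
            have hu2 : u ^ 2 ≡ c ^ 2 [MOD m] := hucm.pow 2
            have hA : u ^ 2 ≡ 4 * n + r * v ^ 2 [MOD Qz z * v ^ 2] := (hu2.of_dvd hdvd1).trans hc1
            have hB : u ^ 2 ≡ 4 * n [MOD d * v ^ 2] := (hu2.of_dvd hdvd2).trans hc2
            have hlow : 4 * (n : ℝ) + X * (v : ℝ) ^ 2 < (u : ℝ) ^ 2 := by
              have := (Real.sqrt_lt' (show (0 : ℝ) < u by exact_mod_cast hu1)).mp hau
              exact this
            have hupp : (u : ℝ) ^ 2 ≤ 4 * (n : ℝ) + ((1 + η) * X) * (v : ℝ) ^ 2 := by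
              have h11 : (u : ℝ) ^ 2 ≤ b ^ 2 := by
                apply pow_le_pow_left₀ (Nat.cast_nonneg _) hub
              rw [hb, Real.sq_sqrt (by positivity)] at h11
              exact h11
            have h4n : 4 * n ≤ u ^ 2 := by
              have : 4 * (n : ℝ) ≤ (u : ℝ) ^ 2 := by nlinarith [sq_nonneg (v : ℝ)]
              exact_mod_cast this
            have hdv : d * v ^ 2 ∣ u ^ 2 - 4 * n := (Nat.modEq_iff_dvd' h4n).mp hB.symm
            obtain ⟨e, he⟩ := hdv
            have he2 : u ^ 2 = 4 * n + (d * e) * v ^ 2 := by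
              have : u ^ 2 - 4 * n = (d * e) * v ^ 2 := by rw [he]; ring
              omega
            have heR : (u : ℝ) ^ 2 = 4 * (n : ℝ) + ((d * e : ℕ) : ℝ) * (v : ℝ) ^ 2 := by
              exact_mod_cast he2
            have hv2 : (0 : ℝ) < (v : ℝ) ^ 2 := by positivity
            have hD1 : (X : ℝ) < ((d * e : ℕ) : ℝ) := by
              rw [heR] at hlow
              have : (X : ℝ) * (v : ℝ) ^ 2 < ((d * e : ℕ) : ℝ) * (v : ℝ) ^ 2 := by linarith
              exact lt_of_mul_lt_mul_right this hv2.le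
            have hD2 : ((d * e : ℕ) : ℝ) ≤ (1 + η) * X := by
              rw [heR] at hupp
              have : ((d * e : ℕ) : ℝ) * (v : ℝ) ^ 2 ≤ ((1 + η) * X) * (v : ℝ) ^ 2 := by linarith
              exact le_of_mul_le_mul_right this hv2
            have hD3 : (d * e) % Qz z = r := by
              rw [he2] at hA
              have h12 : (d * e) * v ^ 2 ≡ r * v ^ 2 [MOD Qz z * v ^ 2] :=
                Nat.ModEq.add_left_cancel' _ hA
              have h13 : (d * e) ≡ r [MOD Qz z] :=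
                Nat.ModEq.mul_right_cancel' (by positivity) h12
              rw [Nat.ModEq, Nat.mod_eq_of_lt hr] at h13
              exact h13
            refine ⟨⟨⟨hu1, hun⟩, d * e, ?_, ?_⟩, huc⟩
            · rw [hE, Finset.mem_filter, DD, Finset.mem_filter, Finset.mem_Ioc]
              exact ⟨⟨⟨by exact_mod_cast hD1, Nat.le_floor hD2⟩, hD3⟩, Dvd.intro _ rfl⟩
            · have h14 : (u : ℤ) ^ 2 = 4 * (n : ℤ) + ((d * e : ℕ) : ℤ) * (v : ℤ) ^ 2 := by
                exact_mod_cast he2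
              linarith
          · right
            exact HH_zero n u hn (by omega))
        (HH_anti n a b ha0) (fun x => phi_nonneg _) (fun x => phi_le_one _) (HH_cont n)
      rw [hI, h10] at h9
      linarith
    · have h9 := prog (HH n) a b hab m hm c (U.filter (fun u => u % m = c))
        (by
          intro u hu
          rw [Finset.mem_filter] at hu
          exact ⟨(hUab u hu.1).1, (hUab u hu.1).2, hu.2⟩)
        (HH_anti n a b ha0) (fun x _ => phi_nonneg _) (fun x _ => phi_le_one _)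
        (HH_cont n).continuousOn
      rw [hI, h10] at h9
      linarith
  have hRR : (RR z r n v d : ℝ) = ∑ _c ∈ C, (1 : ℝ) := by
    rw [Finset.sum_const, nsmul_eq_mul, mul_one, RR, hC, hmdef]
  rw [hRR, Finset.sum_mul, ← Finset.sum_sub_distrib]
  refine (Finset.abs_sum_le_sum_abs _ _).trans (Finset.sum_le_sum fun c hc => ?_)
  rw [one_mul]
  exact hfib c hc

end Pool.Agent.Run7.h779.CG
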