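import Pool.Agent.Run7.h779.CG.R2

/-!
# T2 and JP: sum over d of the number of roots
-/

set_option autoImplicit false

namespace Pool.Agent.Run7.h779.CG

open Finset Pool.Agent.H38R2.CG Pool.Agent.H38R2.CG2
open scoped Classical

/-- the sum over d in the kernel is nonnegative -/
lemma K_nonneg (z X : ℕ) (P : Finset ℕ) (δ : ℝ) (C0 : ℕ) (ρ : ℕ → ℝ) (m v : ℕ)
    (hS : SWt z X P δ C0 ρ) :
    0 ≤ ∑ d ∈ Finset.Icc 1 X, ρ d / d *
      ∏ p ∈ d.primeFactors.filter (fun p => ¬ p ∣ v), (1 + (jacobiSym (m : ℤ) p : ℝ)) := by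
  have h := hS.pos (fun p => if p.Prime then
    (if p ∣ v then 1 / (p : ℝ) else (1 + (jacobiSym (m : ℤ) p : ℝ)) / p) else 0) (by
      intro p
      by_cases hp : p.Prime
      · simp only [if_pos hp]
        have hp2 : (2 : ℝ) ≤ p := by exact_mod_cast hp.two_le
        have hp0 : (0 : ℝ) < p := by linarith
        split_ifs
        · constructor
          · positivity
          · rw [div_le_one hp0]
            linarith
        · constructor
          · exact div_nonneg (jac_nonneg _ _) hp0.le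
          · rw [div_le_one hp0]
            linarith [jac_le_two (m : ℤ) p]
      · simp only [if_neg hp]
        norm_num)
  refine h.trans (le_of_eq ?_)
  refine Finset.sum_congr rfl fun d _ => ?_
  by_cases hρ : ρ d = 0
  · rw [hρ]
    simp
  · have hsq := (hS.supp d hρ).2.2.1
    rw [div_mul_eq_mul_div, mul_div_assoc]
    congr 1
    have hd : (d : ℝ) = ∏ p ∈ d.primeFactors, (p : ℝ) := by
      conv_lhs => rw [← Nat.prod_primeFactors_of_squarefree hsq]
      push_cast
      rfl
    rw [Finset.prod_filter]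
    conv_rhs => rw [hd]
    rw [← Finset.prod_div_distrib]
    refine Finset.prod_congr rfl fun p hp => ?_
    rw [if_pos (Nat.prime_of_mem_primeFactors hp)]
    by_cases hpv : p ∣ v
    · rw [if_pos hpv, if_neg (not_not.mpr hpv)]
    · rw [if_neg hpv, if_pos hpv]

lemma tau_nonneg (c : Finset ℕ) (v : ℕ) : 0 ≤ tau c v := by
  unfold tau
  exact Finset.prod_nonneg fun p _ => by positivity

theorem T2_JP : P2_JP := by
  intro z X P δ C0 ρ c m v hS
  unfold JJ
  refine mul_nonneg (mul_nonneg (tau_nonneg c v) ?_) (K_nonneg z X P δ C0 ρ m v hS)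
  exact Finset.prod_nonneg fun p _ => jac_nonneg _ _

theorem T2_T2 : P2_T2 := by
  intro z r X v P δ C0 ρ c s t hv hS hP hc hs ht hcs hct hst
  set m : ℕ := prodS s * prodS t with hm
  set n : ℕ := prodS c ^ 2 * m with hn
  have hPp : ∀ u ⊆ P, ∀ p ∈ u, p.Prime := fun u hu p hp => (hP p (hu hp)).1
  have hpos : ∀ u ⊆ P, 0 < prodS u := fun u hu => Finset.prod_pos fun p hp => (hPp u hu p hp).pos
  have hn1 : 1 ≤ n := by
    rw [hn, hm]
    exact Nat.mul_pos (pow_pos (hpos c hc) 2) (Nat.mul_pos (hpos s hs) (hpos t ht))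
  have hPn : ∀ p : ℕ, p.Prime → p ∣ n → p ∈ P := by
    intro p hp hpn
    rw [hn, hm] at hpn
    rcases (hp.dvd_mul).1 hpn with h | h
    · exact hc (mem_of_dvd_prodS hp (hPp c hc) (hp.dvd_of_dvd_pow h))
    · rcases (hp.dvd_mul).1 h with h | h
      · exact hs (mem_of_dvd_prodS hp (hPp s hs) h)
      · exact ht (mem_of_dvd_prodS hp (hPp t ht) h)
  have h1 : ∑ d ∈ Finset.Icc 1 X, ρ d / d * (RR z r n v d : ℝ) =
      (rho z r n v : ℝ) * ∑ d ∈ Finset.Icc 1 X, ρ d / d *
      ∏ p ∈ d.primeFactors.filter (fun p => ¬ p ∣ v), (1 + (jacobiSym (m : ℤ) p : ℝ)) := by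
    rw [Finset.mul_sum]
    refine Finset.sum_congr rfl fun d _ => ?_
    by_cases hρ : ρ d = 0
    · rw [hρ]
      simp
    · obtain ⟨_, _, hsq, hdQ, hdP⟩ := hS.supp d hρ
      have hdn : d.Coprime n := by
        rw [Nat.coprime_iff_gcd_eq_one]
        by_contra hne
        obtain ⟨p, hp, hpd⟩ := Nat.exists_prime_and_dvd hne
        have h2 := hpd.trans (Nat.gcd_dvd_left d n)
        have h3 := hpd.trans (Nat.gcd_dvd_right d n)
        exact hdP p (hPn p hp h3) h2
      rw [T2_R1 z r n v d hn1 hv hsq hdQ hdn]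
      have h2 : ∏ p ∈ d.primeFactors.filter (fun p => ¬ p ∣ v),
          (1 + (jacobiSym (n : ℤ) p : ℝ)) =
          ∏ p ∈ d.primeFactors.filter (fun p => ¬ p ∣ v),
          (1 + (jacobiSym (m : ℤ) p : ℝ)) := by
        refine Finset.prod_congr rfl fun p hp => ?_
        rw [Finset.mem_filter] at hp
        have hpp := Nat.prime_of_mem_primeFactors hp.1
        have hpd := Nat.dvd_of_mem_primeFactors hp.1
        have hpc : ¬ p ∣ prodS c := fun h =>
          hdP p (hc (mem_of_dvd_prodS hpp (hPp c hc) h)) hpd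
        rw [hn, jac_sq_mul _ _ _ hpp hpc]
      rw [h2]
      ring
  rw [h1]
  have hR2 := T2_R2 z r v c s t hv hcs hct hst (by
    intro p hp
    rw [Finset.mem_union, Finset.mem_union] at hp
    rcases hp with (h | h) | h
    · exact hP p (hc h)
    · exact hP p (hs h)
    · exact hP p (ht h))
  have h3 := mul_le_mul_of_nonneg_right hR2 (K_nonneg z X P δ C0 ρ m v hS)
  refine h3.trans (le_of_eq ?_)
  unfold JJ
  ring

end Pool.Agent.Run7.h779.CG
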