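import Pool.Agent.H38R2.CG2.Stubs

/-!
# TRIV and WT: trivial weights, nonnegativity of the weights
-/

set_option autoImplicit false

namespace Pool.Agent.Run7.h779.CG

open Finset Pool.Agent.H38R2.CG Pool.Agent.H38R2.CG2
open scoped Classical

theorem T2_TRIV : P2_TRIV := by
  intro z X P δ C0 hX hδ hC hP
  have hX1 : (1 : ℝ) ≤ X := by exact_mod_cast (by omega : 1 ≤ X)
  have hGG : GG X (fun d => if d = 1 then 1 else 0) = 1 := by
    unfold GG
    rw [Finset.sum_eq_single_of_mem 1 (Finset.mem_Icc.mpr ⟨le_rfl, by omega⟩)]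
    · simp
    · intro b _ hb
      simp [hb]
  refine ⟨⟨?_, ?_, ?_, ?_, ?_⟩, hGG, ?_⟩
  · intro d hd
    have hd1 : d = 1 := by
      by_contra h
      exact hd (if_neg h)
    subst hd1
    refine ⟨le_rfl, ?_, squarefree_one, Nat.coprime_one_left _, ?_⟩
    · push_cast
      exact Real.one_le_rpow hX1 hδ.le
    · intro p hp h
      exact (hP p hp).one_lt.ne' (Nat.dvd_one.mp h)
  · intro d
    split_ifs <;> simp
  · rw [hGG]
    apply inv_le_one_of_one_le₀
    apply one_le_pow₀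
    rw [Real.le_log_iff_exp_le (by linarith)]
    have h1 : (3 : ℝ) ≤ X := by exact_mod_cast hX
    linarith [Real.exp_one_lt_d9]
  · intro g hg
    rw [hGG, mul_one]
    rw [Finset.sum_filter]
    rw [Finset.sum_eq_single_of_mem 1 (Finset.mem_Icc.mpr ⟨le_rfl, by omega⟩)]
    · by_cases h : g ∣ 1
      · rw [if_pos h, Nat.dvd_one.mp h]
        simp
      · rw [if_neg h, abs_zero]
        positivity
    · intro b _ hb
      rw [if_neg hb]
      simp
  · intro x _
    rw [Finset.sum_eq_single_of_mem 1 (Finset.mem_Icc.mpr ⟨le_rfl, by omega⟩)]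
    · simp
    · intro b _ hb
      rw [if_neg hb]
      simp
  · intro D hD
    unfold wt
    rw [Finset.sum_eq_single_of_mem 1 (Nat.one_mem_divisors.mpr (by omega))]
    · simp
    · intro b _ hb
      rw [if_neg hb]

theorem supp_le (z X : ℕ) (P : Finset ℕ) (δ : ℝ) (C0 : ℕ) (ρ : ℕ → ℝ) (hX : 1 ≤ X) (hδ : δ ≤ 1)
    (hS : SWt z X P δ C0 ρ) (d : ℕ) (hd : ρ d ≠ 0) : d ≤ X := by
  have hX1 : (1 : ℝ) ≤ X := by exact_mod_cast hX
  have h1 := (hS.supp d hd).2.1
  have h2 : (X : ℝ) ^ δ ≤ X := by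
    calc (X : ℝ) ^ δ ≤ (X : ℝ) ^ (1 : ℝ) := Real.rpow_le_rpow_of_exponent_le hX1 hδ
      _ = X := Real.rpow_one _
  exact_mod_cast h1.trans h2

theorem T2_WT : P2_WT := by
  intro z X P δ C0 ρ hX hδ hS D hD
  have h1 : wt ρ D = ∑ d ∈ (Finset.Icc 1 X).filter (fun d => d ∣ D), ρ d := by
    unfold wt
    have e1 : ∑ d ∈ (Finset.Icc 1 X).filter (fun d => d ∣ D), ρ d =
        ∑ d ∈ ((Finset.Icc 1 X).filter (fun d => d ∣ D)).filter (fun d => ρ d ≠ 0), ρ d := by
      rw [Finset.sum_filter_ne_zero]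
    have e2 : ∑ d ∈ D.divisors, ρ d = ∑ d ∈ D.divisors.filter (fun d => ρ d ≠ 0), ρ d := by
      rw [Finset.sum_filter_ne_zero]
    rw [e1, e2]
    refine Finset.sum_congr ?_ (fun _ _ => rfl)
    ext d
    simp only [Finset.mem_filter, Nat.mem_divisors, Finset.mem_Icc]
    constructor
    · rintro ⟨⟨h1, _⟩, h2⟩
      exact ⟨⟨⟨(hS.supp d h2).1, supp_le z X P δ C0 ρ hX hδ hS d h2⟩, h1⟩, h2⟩
    · rintro ⟨⟨_, h1⟩, h2⟩
      exact ⟨⟨h1, by omega⟩, h2⟩
  refine ⟨?_, h1⟩
  have h2 := hS.pos (fun p => if p ∣ D then 1 else 0) (fun p => by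
    by_cases h : p ∣ D
    · simp only [if_pos h]; norm_num
    · simp only [if_neg h]; norm_num)
  rw [h1, Finset.sum_filter]
  refine h2.trans (le_of_eq ?_)
  refine Finset.sum_congr rfl fun d hd => ?_
  by_cases hρ : ρ d = 0
  · rw [hρ]
    simp
  · have hsq := (hS.supp d hρ).2.2.1
    by_cases hdD : d ∣ D
    · rw [if_pos hdD, Finset.prod_eq_one, mul_one]
      intro p hp
      rw [if_pos ((Nat.dvd_of_mem_primeFactors hp).trans hdD)]
    · rw [if_neg hdD]
      obtain ⟨p, hp, hpD⟩ : ∃ p ∈ d.primeFactors, ¬ p ∣ D := by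
        by_contra hcon
        push Not at hcon
        apply hdD
        rw [← Nat.prod_primeFactors_of_squarefree hsq]
        exact Finset.prod_primes_dvd D (fun p hp => (Nat.prime_of_mem_primeFactors hp).prime) hcon
      rw [Finset.prod_eq_zero hp (if_neg hpD), mul_zero]

end Pool.Agent.Run7.h779.CG
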