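import Pool.Agent.H38R2.CG2.Stubs
import Pool.Agent.Run7.h779.CG.TRWT

/-!
# V0: weighted number of the D divisible by e
-/

set_option autoImplicit false

namespace Pool.Agent.Run7.h779.CG

open Finset Pool.Agent.H38R2.CG Pool.Agent.H38R2.CG2
open scoped Classical

lemma cnt_DD (z r X L : ℕ) (η : ℝ) (hr : r < Qz z) (hη : 0 < η) (hL : 1 ≤ L)
    (hcop : L.Coprime (Qz z)) :
    |(((DD z r X η).filter (fun D => L ∣ D)).card : ℝ) - η * X / (Qz z * L)| ≤ 2 := by
  have hQ : 0 < Qz z := by omega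
  obtain ⟨c, hc0, hcr⟩ := Nat.chineseRemainder hcop 0 r
  have hset : (DD z r X η).filter (fun D => L ∣ D) =
      (Finset.Ioc X ⌊(1 + η) * X⌋₊).filter (fun D => D ≡ c [MOD L * Qz z]) := by
    ext D
    rw [DD, Finset.mem_filter, Finset.mem_filter, Finset.mem_filter,
      ← Nat.modEq_and_modEq_iff_modEq_mul hcop]
    constructor
    · rintro ⟨⟨h1, h2⟩, h3⟩
      refine ⟨h1, ((Nat.modEq_zero_iff_dvd).mpr h3).trans hc0.symm, ?_⟩
      have h4 : D ≡ r [MOD Qz z] := by rw [Nat.ModEq, h2, Nat.mod_eq_of_lt hr]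
      exact h4.trans hcr.symm
    · rintro ⟨h1, h2, h3⟩
      refine ⟨⟨h1, ?_⟩, (Nat.modEq_zero_iff_dvd).mp (h2.trans hc0)⟩
      have h4 : D ≡ r [MOD Qz z] := h3.trans hcr
      rw [Nat.ModEq, Nat.mod_eq_of_lt hr] at h4
      exact h4
  rw [hset]
  have hm : 0 < L * Qz z := Nat.mul_pos (by omega) hQ
  have hcard := Nat.Ioc_filter_modEq_card X ⌊(1 + η) * X⌋₊ hm c
  set N : ℕ := ((Finset.Ioc X ⌊(1 + η) * X⌋₊).filter (fun D => D ≡ c [MOD L * Qz z])).card
    with hN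
  set b : ℕ := ⌊(1 + η) * X⌋₊ with hb
  have hXb : X ≤ b := by
    rw [hb]
    apply Nat.le_floor
    have : (0 : ℝ) ≤ X := Nat.cast_nonneg _
    nlinarith
  have hbr : (b : ℝ) ≤ (1 + η) * X := Nat.floor_le (by positivity)
  have hbr2 : (1 + η) * X < (b : ℝ) + 1 := Nat.lt_floor_add_one _
  have hmQ : (1 : ℝ) ≤ ((L * Qz z : ℕ) : ℝ) := by exact_mod_cast hm
  have hmQ0 : (0 : ℝ) < ((L * Qz z : ℕ) : ℝ) := by linarith
  -- rational bounds
  set x : ℚ := ((b : ℚ) - c) / ((L * Qz z : ℕ) : ℚ) with hx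
  set y : ℚ := ((X : ℚ) - c) / ((L * Qz z : ℕ) : ℚ) with hy
  have hxy : x - y = ((b : ℚ) - X) / ((L * Qz z : ℕ) : ℚ) := by
    rw [hx, hy]
    ring
  have hxy0 : 0 ≤ x - y := by
    rw [hxy]
    have : (X : ℚ) ≤ b := by exact_mod_cast hXb
    have h1 : (0 : ℚ) ≤ (b : ℚ) - X := by linarith
    positivity
  have hN1 : ((N : ℤ) : ℚ) ≤ (x - y) + 1 := by
    rw [hcard]
    push_cast
    apply max_le
    · have h1 := Int.floor_le x
      have h2 := Int.lt_floor_add_one y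
      linarith
    · linarith
  have hN2 : (x - y) - 1 ≤ ((N : ℤ) : ℚ) := by
    rw [hcard]
    push_cast
    refine le_trans ?_ (le_max_left _ _)
    have h1 := Int.lt_floor_add_one x
    have h2 := Int.floor_le y
    linarith
  rw [hxy] at hN1 hN2
  have hN1' : (N : ℝ) ≤ ((b : ℝ) - X) / ((L * Qz z : ℕ) : ℝ) + 1 := by
    have h := (Rat.cast_le (K := ℝ)).mpr hN1
    push_cast at h ⊢
    exact h
  have hN2' : ((b : ℝ) - X) / ((L * Qz z : ℕ) : ℝ) - 1 ≤ (N : ℝ) := by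
    have h := (Rat.cast_le (K := ℝ)).mpr hN2
    push_cast at h ⊢
    exact h
  have hcast : η * X / (Qz z * L) = η * X / ((L * Qz z : ℕ) : ℝ) := by
    push_cast
    rw [mul_comm (L : ℝ)]
  rw [hcast, abs_le]
  have h3 : ((b : ℝ) - X) / ((L * Qz z : ℕ) : ℝ) ≤ η * X / ((L * Qz z : ℕ) : ℝ) := by
    apply div_le_div_of_nonneg_right _ hmQ0.le
    linarith
  have h4 : η * X / ((L * Qz z : ℕ) : ℝ) ≤ ((b : ℝ) - X) / ((L * Qz z : ℕ) : ℝ) + 1 := by
    rw [div_add_one hmQ0.ne']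
    apply div_le_div_of_nonneg_right _ hmQ0.le
    linarith
  constructor
  · linarith
  · linarith

/-- the number of d in the support of the weights -/
lemma card_supp (z X : ℕ) (P : Finset ℕ) (δ : ℝ) (C0 : ℕ) (ρ : ℕ → ℝ)
    (hS : SWt z X P δ C0 ρ) : ∑ d ∈ Finset.Icc 1 X, |ρ d| ≤ (X : ℝ) ^ δ := by
  have h0 : (0 : ℝ) ≤ (X : ℝ) ^ δ := Real.rpow_nonneg (Nat.cast_nonneg _) _
  calc ∑ d ∈ Finset.Icc 1 X, |ρ d|
      = ∑ d ∈ (Finset.Icc 1 X).filter (fun d => |ρ d| ≠ 0), |ρ d| := by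
        rw [Finset.sum_filter_ne_zero]
    _ ≤ ∑ d ∈ (Finset.Icc 1 X).filter (fun d => |ρ d| ≠ 0), (1 : ℝ) :=
        Finset.sum_le_sum fun d _ => hS.bd d
    _ ≤ ∑ d ∈ Finset.Icc 1 ⌊(X : ℝ) ^ δ⌋₊, (1 : ℝ) := by
        apply Finset.sum_le_sum_of_subset_of_nonneg
        · intro d hd
          rw [Finset.mem_filter, Finset.mem_Icc] at hd
          rw [Finset.mem_Icc]
          refine ⟨hd.1.1, Nat.le_floor ?_⟩
          exact (hS.supp d (by simpa using hd.2)).2.1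
        · intro _ _ _
          exact zero_le_one
    _ = (⌊(X : ℝ) ^ δ⌋₊ : ℝ) := by simp
    _ ≤ (X : ℝ) ^ δ := Nat.floor_le h0

theorem T2_V0 : P2_V0 := by
  intro z r X η P δ C0 ρ e hr hη hX hδ hS he hecop
  have hX1 : (1 : ℝ) ≤ X := by exact_mod_cast hX
  have h1 : ∑ D ∈ (DD z r X η).filter (fun D => e ∣ D), wt ρ D =
      ∑ d ∈ Finset.Icc 1 X, ρ d *
        (((DD z r X η).filter (fun D => Nat.lcm d e ∣ D)).card : ℝ) := by
    calc ∑ D ∈ (DD z r X η).filter (fun D => e ∣ D), wt ρ D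
        = ∑ D ∈ (DD z r X η).filter (fun D => e ∣ D), ∑ d ∈ Finset.Icc 1 X,
            (if d ∣ D then ρ d else 0) := by
          refine Finset.sum_congr rfl fun D hD => ?_
          rw [Finset.mem_filter, DD, Finset.mem_filter, Finset.mem_Ioc] at hD
          rw [(T2_WT z X P δ C0 ρ hX hδ hS D (by omega)).2, Finset.sum_filter]
      _ = ∑ d ∈ Finset.Icc 1 X, ∑ D ∈ (DD z r X η).filter (fun D => e ∣ D),
            (if d ∣ D then ρ d else 0) := Finset.sum_comm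
      _ = _ := by
          refine Finset.sum_congr rfl fun d _ => ?_
          rw [← Finset.sum_filter, Finset.filter_filter, Finset.sum_const, nsmul_eq_mul, mul_comm]
          congr 3
          ext D
          simp only [Finset.mem_filter, Nat.lcm_dvd_iff]
          tauto
  have h2 : η * X / Qz z * ∑ d ∈ Finset.Icc 1 X, ρ d / (Nat.lcm d e : ℝ) =
      ∑ d ∈ Finset.Icc 1 X, ρ d * (η * X / (Qz z * (Nat.lcm d e : ℕ))) := by
    rw [Finset.mul_sum]
    refine Finset.sum_congr rfl fun d _ => ?_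
    rw [div_mul_eq_div_div]
    ring
  rw [h1, h2, ← Finset.sum_sub_distrib]
  calc |∑ d ∈ Finset.Icc 1 X, (ρ d *
          (((DD z r X η).filter (fun D => Nat.lcm d e ∣ D)).card : ℝ) -
          ρ d * (η * X / (Qz z * (Nat.lcm d e : ℕ))))|
      ≤ ∑ d ∈ Finset.Icc 1 X, |ρ d *
          (((DD z r X η).filter (fun D => Nat.lcm d e ∣ D)).card : ℝ) -
          ρ d * (η * X / (Qz z * (Nat.lcm d e : ℕ)))| := Finset.abs_sum_le_sum_abs _ _
    _ ≤ ∑ d ∈ Finset.Icc 1 X, 2 * |ρ d| := by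
        refine Finset.sum_le_sum fun d hd => ?_
        rw [Finset.mem_Icc] at hd
        rw [← mul_sub, abs_mul, mul_comm 2]
        by_cases hρ : ρ d = 0
        · rw [hρ]
          simp
        · apply mul_le_mul_of_nonneg_left _ (abs_nonneg _)
          apply cnt_DD z r X _ η hr hη
          · exact Nat.pos_of_ne_zero (Nat.lcm_ne_zero (by omega) (by omega))
          · have h3 := (hS.supp d hρ).2.2.2.1
            exact Nat.Coprime.coprime_dvd_left (Nat.lcm_dvd_mul d e) (h3.mul_left hecop)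
    _ = 2 * ∑ d ∈ Finset.Icc 1 X, |ρ d| := by rw [Finset.mul_sum]
    _ ≤ 2 * (X : ℝ) ^ δ := by
        have := card_supp z X P δ C0 ρ hS
        linarith

end Pool.Agent.Run7.h779.CG
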